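import Mathlib
import Pool.Agent.R389.Metab
import Pool.Agent.H302R2.TransferTwo
import Pool.Agent.H302R2.OddOrder

/-!
# Heilbronn functions of degree two which are trivial on a normal subgroup with
abelian-by-nilpotent quotient
-/

set_option autoImplicit false
set_option linter.unusedSectionVars false

namespace Pool.Agent.R362.EV

open Pool.Agent.H302R2 Pool.Agent.H541R3.ART Pool.Agent.W446.AS Pool.Agent.R389

variable {G : Type} [Group G] [Finite G] {θ : G → ℂ}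

/-- a function constant on the cosets of `K` is orthogonal to the irreducible characters with mean
zero on the cosets -/
lemma pr_zero (K : Subgroup G) [K.Normal] (hc : ∀ g, ∀ k ∈ K, θ (g * k) = θ g) {χ : G → ℂ}
    (hχ : χ ∈ Irr G) (h : inv K χ = 0) : pr θ χ = 0 := by
  classical
  have : Fintype G := Fintype.ofFinite G
  have : Fintype K := Fintype.ofFinite K
  have h1 : ∀ g : G, ∑ k : K, χ (g * k) = 0 := by
    intro g
    have h2 := congrFun h g
    rw [inv_eq] at h2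
    rcases mul_eq_zero.mp h2 with h3 | h3
    · exact absurd (inv_eq_zero.mp h3) card_ne
    · exact h3
  have h2 : (Nat.card K : ℂ) * ∑ g : G, θ g * χ g⁻¹ = 0 := by
    have h3 : ∀ k : K, ∑ g : G, θ g * χ g⁻¹ = ∑ g : G, θ g * χ (g⁻¹ * (k⁻¹ : K)) := by
      intro k
      rw [← Equiv.sum_comp (Equiv.mulRight (k : G))]
      refine Finset.sum_congr rfl fun g _ => ?_
      rw [Equiv.coe_mulRight, hc g k k.2, mul_inv_rev]
      congr 1
      have h4 := Irr.conj hχ ((k : G)⁻¹ * g⁻¹) (k : G)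
      rw [← h4]
      congr 1
      rw [Subgroup.coe_inv]
      group
    have h5 : ∑ _k : K, ∑ g : G, θ g * χ g⁻¹ = 0 := by
      rw [Finset.sum_congr rfl fun k _ => h3 k, Finset.sum_comm]
      refine Finset.sum_eq_zero fun g _ => ?_
      have h6 : ∑ k : K, χ (g⁻¹ * (k⁻¹ : K)) = ∑ k : K, χ (g⁻¹ * k) :=
        Equiv.sum_comp (Equiv.inv K) (fun k : K => χ (g⁻¹ * k))
      rw [← Finset.mul_sum, h6, h1, mul_zero]
    rw [Finset.sum_const, Finset.card_univ, nsmul_eq_mul, ← Nat.card_eq_fintype_card] at h5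
    exact h5
  rcases mul_eq_zero.mp h2 with h3 | h3
  · exact absurd h3 card_ne
  · rw [pr_eq, h3, mul_zero]

/-- multiplicities of irreducible characters -/
lemma pos_of_quot (hθ : IsHeilbronn θ) (K : Subgroup G) [K.Normal]
    (hc : ∀ g, ∀ k ∈ K, θ (g * k) = θ g) (hQ : AN (G ⧸ K)) {χ : G → ℂ} (hχ : χ ∈ Irr G) :
    ∃ n : ℕ, pr θ χ = n ∧ (n ≠ 0 → Mono χ ∧ ∀ g, ∀ k ∈ K, χ (g * k) = χ g) := by
  rcases irr_inv K hχ with h | ⟨-, h⟩
  · have hne : inv K χ ≠ 0 := by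
      rw [inv_of_const K h]
      intro h0
      obtain ⟨d, hd, hd1⟩ := irr_deg_pos hχ
      rw [h0] at hd1
      have : (d : ℂ) = 0 := hd1.symm
      have : d = 0 := by exact_mod_cast this
      omega
    have hm := mono_of_quot K hQ hχ hne
    obtain ⟨U, ψ, rfl⟩ := id hm
    obtain ⟨n, hn⟩ := hθ.mult U ψ
    refine ⟨n, ?_, fun _ => ⟨hm, h⟩⟩
    rw [frob' U _ (fun g x => hθ.conj g x)]
    unfold pr
    have h1 : ∀ x : U, θ x * (((ψ x⁻¹ : ℂˣ)) : ℂ) = θ x * (((ψ x)⁻¹ : ℂˣ) : ℂ) := by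
      intro x
      rw [map_inv]
    rw [finsum_congr h1, hn, mul_comm (n : ℂ), inv_mul_cancel_left₀ card_ne]
  · refine ⟨0, ?_, fun h => absurd rfl h⟩
    rw [pr_zero K hc hχ h, Nat.cast_zero]

/-- **Classification.** -/
lemma classify (hθ : IsHeilbronn θ) (hV : Virt θ) (h1 : θ 1 = 2) (K : Subgroup G) [K.Normal]
    (hK : ∀ k ∈ K, θ k = 2) (hQ : AN (G ⧸ K)) : Split θ ∨ (θ ∈ Irr G ∧ Mono θ) := by
  classical
  have : Fintype G := Fintype.ofFinite G
  have hc : ∀ g, ∀ k ∈ K, θ (g * k) = θ g := fun g k hk => hθ.const_on_cosets h1 K hK g hk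
  choose! n hn hn2 using fun χ (hχ : χ ∈ Irr G) => pos_of_quot hθ K hc hQ hχ
  choose! d hd hd1 using fun χ (hχ : χ ∈ Irr G) => irr_deg_pos hχ
  have hexp : ∀ g, θ g = ∑ χ ∈ irrF G, (n χ : ℂ) * χ g := by
    intro g
    rw [hV.expand g]
    exact Finset.sum_congr rfl fun χ hχ => by rw [hn χ (mem_irrF.mp hχ)]
  have hsum : ∑ χ ∈ irrF G, n χ * d χ = 2 := by
    have h2 := hexp 1
    rw [h1] at h2
    have h3 : ((∑ χ ∈ irrF G, n χ * d χ : ℕ) : ℂ) = ((2 : ℕ) : ℂ) := by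
      rw [Nat.cast_ofNat, h2]
      push_cast
      exact Finset.sum_congr rfl fun χ hχ => by rw [hd1 χ (mem_irrF.mp hχ)]
    exact_mod_cast h3
  have hex : ∃ χ ∈ irrF G, n χ * d χ ≠ 0 := by
    by_contra hcon
    push Not at hcon
    rw [Finset.sum_eq_zero hcon] at hsum
    omega
  obtain ⟨χ, hχ, hne⟩ := hex
  have hχI := mem_irrF.mp hχ
  have hn0 : n χ ≠ 0 := fun h => hne (by rw [h, zero_mul])
  have hle : n χ * d χ ≤ 2 := by
    rw [← hsum]
    exact Finset.single_le_sum (f := fun χ => n χ * d χ) (fun _ _ => Nat.zero_le _) hχ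
  have hdpos := hd χ hχI
  by_cases hd2 : d χ = 1
  · left
    obtain ⟨l, hl⟩ := (irr_heilbronn hχI).deg_one (by rw [hd1 χ hχI, hd2, Nat.cast_one])
    obtain ⟨μ, hμ⟩ := hθ.two_contains h1 l (by
      have h2 := hn χ hχI
      unfold pr at h2
      intro h3
      have h4 : ∑ᶠ g : G, θ g * χ g⁻¹ = 0 := by
        rw [← h3]
        refine finsum_congr fun g => ?_
        rw [hl g⁻¹, map_inv]
      rw [h4, mul_zero] at h2
      apply hn0
      exact_mod_cast h2.symm)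
    exact ⟨l, μ, hμ⟩
  · right
    have hd3 : d χ = 2 := by
      have : n χ * d χ ≥ d χ := Nat.le_mul_of_pos_left _ (Nat.pos_of_ne_zero hn0)
      omega
    have hn1 : n χ = 1 := by
      rw [hd3] at hle
      omega
    have hz : ∀ ψ ∈ irrF G, ψ ≠ χ → n ψ = 0 := by
      intro ψ hψ hne'
      have h5 : n ψ * d ψ + n χ * d χ ≤ 2 := by
        rw [← hsum, ← Finset.sum_pair (f := fun χ => n χ * d χ) hne']
        refine Finset.sum_le_sum_of_subset ?_
        intro x hx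
        rw [Finset.mem_insert, Finset.mem_singleton] at hx
        rcases hx with rfl | rfl
        · exact hψ
        · exact hχ
      rw [hn1, hd3] at h5
      have h6 : n ψ * d ψ = 0 := by omega
      rcases Nat.mul_eq_zero.mp h6 with h7 | h7
      · exact h7
      · have := hd ψ (mem_irrF.mp hψ)
        omega
    have hθχ : θ = χ := by
      funext g
      rw [hexp g, Finset.sum_eq_single χ]
      · rw [hn1, Nat.cast_one, one_mul]
      · intro ψ hψ hne'
        rw [hz ψ hψ hne', Nat.cast_zero, zero_mul]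
      · intro h
        exact absurd hχ h
    rw [hθχ]
    exact ⟨hχI, (hn2 χ hχI hn0).1⟩

/-- the values of a character induced from a linear character of a subgroup of index two -/
lemma ind_values (T : Subgroup G) (hT : T.index = 2) (ψ : T →* ℂˣ) {g₀ : G} (hg₀ : g₀ ∉ T)
    (t : T) (ht : g₀⁻¹ * t * g₀ ∈ T) :
    ind T (fun h => ((ψ h : ℂˣ) : ℂ)) (t : G)
      = ((ψ t : ℂˣ) : ℂ) + ((ψ ⟨g₀⁻¹ * t * g₀, ht⟩ : ℂˣ) : ℂ) := by
  classical
  have : Fintype G := Fintype.ofFinite G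
  have : T.Normal := Subgroup.normal_of_index_eq_two hT
  have hcard : (Nat.card T : ℂ) ≠ 0 := card_ne
  have h1 : ∀ x : G, ext T (fun h => ((ψ h : ℂˣ) : ℂ)) (x⁻¹ * t * x)
      = if x ∈ T then ((ψ t : ℂˣ) : ℂ) else ((ψ ⟨g₀⁻¹ * t * g₀, ht⟩ : ℂˣ) : ℂ) := by
    intro x
    have hx : x⁻¹ * t * x ∈ T := by
      have := this.conj_mem t t.2 x⁻¹
      rwa [inv_inv] at this
    rw [ext_mem T _ hx]
    split_ifs with h
    · have h2 : (⟨x⁻¹ * t * x, hx⟩ : T) = (⟨x, h⟩ : T)⁻¹ * t * ⟨x, h⟩ := rfl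
      rw [h2, map_mul, map_mul, map_inv, mul_comm _ (ψ t), inv_mul_cancel_right]
    · have h3 : g₀⁻¹ * x ∈ T := by
        rw [Subgroup.mul_mem_iff_of_index_two hT, inv_mem_iff]
        exact iff_of_false hg₀ h
      have h2 : (⟨x⁻¹ * t * x, hx⟩ : T)
          = (⟨g₀⁻¹ * x, h3⟩ : T)⁻¹ * ⟨g₀⁻¹ * t * g₀, ht⟩ * ⟨g₀⁻¹ * x, h3⟩ := by
        apply Subtype.ext
        simp only [Subgroup.coe_mul, Subgroup.coe_inv]
        group
      rw [h2, map_mul, map_mul, map_inv, mul_comm _ (ψ ⟨g₀⁻¹ * t * g₀, ht⟩),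
        inv_mul_cancel_right]
  rw [ind_eq, Finset.sum_congr rfl fun x _ => h1 x, Finset.sum_ite, Finset.sum_const,
    Finset.sum_const, nsmul_eq_mul, nsmul_eq_mul]
  have hc1 : (Finset.univ.filter (fun x : G => x ∈ T)).card = Nat.card T := by
    rw [Nat.card_eq_fintype_card, Fintype.card_subtype]
  have hG : Nat.card G = 2 * Nat.card T := by
    rw [← T.index_mul_card, hT]
  have hc2 : (Finset.univ.filter (fun x : G => ¬ x ∈ T)).card = Nat.card T := by
    have h4 := Finset.card_filter_add_card_filter_not (s := (Finset.univ : Finset G))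
      (fun x : G => x ∈ T)
    rw [hc1, Finset.card_univ, ← Nat.card_eq_fintype_card, hG] at h4
    omega
  rw [hc1, hc2]
  field_simp

lemma neg_one_of_add {u : ℂˣ} (h : (u : ℂ) + ((u⁻¹ : ℂˣ) : ℂ) = -2) : u = -1 := by
  have h0 : (u : ℂ) ≠ 0 := u.ne_zero
  rw [Units.val_inv_eq_inv_val] at h
  have h1 : ((u : ℂ) + 1) ^ 2 = 0 := by
    have h2 : (u : ℂ) * ((u : ℂ) + (u : ℂ)⁻¹) = -2 * (u : ℂ) := by rw [h]; ring
    rw [mul_add, mul_inv_cancel₀ h0] at h2
    linear_combination h2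
  have h3 : (u : ℂ) + 1 = 0 := by
    exact pow_eq_zero_iff (two_ne_zero) |>.mp h1
  apply Units.ext
  rw [Units.val_neg, Units.val_one]
  linear_combination h3

/-- **Irreducible monomial characters of degree two and determinant one.** -/
lemma ind_two (hI : θ ∈ Irr G) (hM : Mono θ) (h1 : θ 1 = 2) (hd : ∀ g, dd θ g = 1) :
    ∃ (T : Subgroup G) (ψ : T →* ℂˣ), T.index = 2 ∧ (∀ g, g ∉ T → θ g = 0) ∧
      (∀ t : T, θ t = ((ψ t : ℂˣ) : ℂ) + (((ψ t)⁻¹ : ℂˣ) : ℂ)) ∧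
      (∃ t : T, ψ t ≠ (ψ t)⁻¹) ∧
      (∀ g, g ∉ T → ∀ (t : T) (ht' : g * t * g⁻¹ ∈ T), ψ ⟨g * t * g⁻¹, ht'⟩ = (ψ t)⁻¹) ∧
      (∀ g, g ∉ T → ∀ (h : g * g ∈ T), ψ ⟨g * g, h⟩ = -1) := by
  classical
  have : Fintype G := Fintype.ofFinite G
  obtain ⟨T, ψ, hM⟩ := hM
  have hTc : (Nat.card T : ℂ) ≠ 0 := card_ne
  have hidx : Nat.card G = 2 * Nat.card T := by
    have h2 : θ 1 = (Nat.card T : ℂ)⁻¹ * Nat.card G := by
      rw [hM, ind_eq]
      congr 1
      have h3 : ∀ x : G, ext T (fun h => ((ψ h : ℂˣ) : ℂ)) (x⁻¹ * 1 * x) = 1 := by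
        intro x
        have h4 : x⁻¹ * 1 * x = 1 := by group
        rw [h4, ext_mem T _ T.one_mem]
        have h5 : (⟨1, T.one_mem⟩ : T) = 1 := rfl
        rw [h5, map_one, Units.val_one]
      rw [Finset.sum_congr rfl fun x _ => h3 x]
      simp
    rw [h1] at h2
    field_simp at h2
    have h3 : ((Nat.card G : ℕ) : ℂ) = ((2 * Nat.card T : ℕ) : ℂ) := by
      push_cast
      linear_combination -h2
    exact_mod_cast h3
  have hT : T.index = 2 := by
    have h2 := T.index_mul_card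
    rw [hidx] at h2
    exact Nat.eq_of_mul_eq_mul_right Nat.card_pos h2
  have hTn : T.Normal := Subgroup.normal_of_index_eq_two hT
  have hout : ∀ g, g ∉ T → θ g = 0 := by
    intro g hg
    rw [hM, ind_eq, Finset.sum_eq_zero, mul_zero]
    intro x _
    apply ext_not
    intro h
    apply hg
    have h2 := hTn.conj_mem _ h x
    have h3 : x * (x⁻¹ * g * x) * x⁻¹ = g := by group
    rwa [h3] at h2
  have hconj : ∀ g, g ∉ T → ∀ (t : T) (ht' : g * t * g⁻¹ ∈ T), ψ ⟨g * t * g⁻¹, ht'⟩ = (ψ t)⁻¹ := by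
    intro g hg t ht'
    let ψ' : T →* ℂˣ := ψ.comp (MulAut.conjNormal g : T ≃* T).toMonoidHom
    have hval : ∀ s : T, θ s = ((ψ s : ℂˣ) : ℂ) + ((ψ' s : ℂˣ) : ℂ) := by
      intro s
      have hs : g⁻¹⁻¹ * s * g⁻¹ ∈ T := by
        rw [inv_inv]
        exact hTn.conj_mem s s.2 g
      have h2 := ind_values T hT ψ (g₀ := g⁻¹) (fun h => hg (by rwa [inv_mem_iff] at h)) s hs
      have h3 : (⟨g⁻¹⁻¹ * s * g⁻¹, hs⟩ : T) = MulAut.conjNormal g s :=
        Subtype.ext (by simp [MulAut.conjNormal_apply])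
      rw [hM, h2, h3]
      rfl
    have h2 := dd_of_sum hval t
    have h3 : dd (fun s : T => θ s) t = dd θ t := rfl
    rw [h3, hd] at h2
    have h4 : ψ' t = ψ ⟨g * t * g⁻¹, ht'⟩ := by
      change ψ _ = ψ _
      congr 1
    rw [← h4]
    apply eq_inv_of_mul_eq_one_right
    apply Units.ext
    rw [Units.val_mul, Units.val_one]
    exact h2.symm
  have hex : ∃ g, g ∉ T := by
    by_contra hcon
    push Not at hcon
    have h2 : T = ⊤ := by
      rw [eq_top_iff]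
      exact fun g _ => hcon g
    rw [h2, Subgroup.index_top] at hT
    omega
  have hin : ∀ t : T, θ t = ((ψ t : ℂˣ) : ℂ) + (((ψ t)⁻¹ : ℂˣ) : ℂ) := by
    intro t
    obtain ⟨g, hg⟩ := hex
    have ht' : g * t * g⁻¹ ∈ T := hTn.conj_mem t t.2 g
    have ht : g⁻¹⁻¹ * t * g⁻¹ ∈ T := by rwa [inv_inv]
    have h2 := ind_values T hT ψ (g₀ := g⁻¹) (fun h => hg (by rwa [inv_mem_iff] at h)) t ht
    have h3 : (⟨g⁻¹⁻¹ * t * g⁻¹, ht⟩ : T) = ⟨g * t * g⁻¹, ht'⟩ := Subtype.ext (by simp)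
    rw [hM, h2, h3, hconj g hg t ht']
  refine ⟨T, ψ, hT, hout, hin, ?_, hconj, ?_⟩
  · by_contra hcon
    push Not at hcon
    have h2 := pr_self hI
    rw [pr_eq] at h2
    have h3 : ∀ g : G, θ g * θ g⁻¹ = if g ∈ T then 4 else 0 := by
      intro g
      split_ifs with hg
      · have h4 := hin ⟨g, hg⟩
        have h5 := hin ⟨g, hg⟩⁻¹
        rw [map_inv, inv_inv, add_comm] at h5
        have h6 : θ g⁻¹ = θ g := by
          rw [show θ g⁻¹ = θ (((⟨g, hg⟩ : T)⁻¹ : T) : G) from rfl, h5, ← h4]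
        have h8 : ((ψ ⟨g, hg⟩ : ℂˣ) : ℂ) = (((ψ ⟨g, hg⟩)⁻¹ : ℂˣ) : ℂ) := by
          rw [← hcon ⟨g, hg⟩]
        have h7 : ((ψ ⟨g, hg⟩ : ℂˣ) : ℂ) * (((ψ ⟨g, hg⟩)⁻¹ : ℂˣ) : ℂ) = 1 := by
          rw [← Units.val_mul, mul_inv_cancel, Units.val_one]
        rw [h6]
        change θ g = _ at h4
        rw [h4, ← h8]
        rw [← h8] at h7
        linear_combination 4 * h7
      · rw [hout g hg, zero_mul]
    rw [Finset.sum_congr rfl fun g _ => h3 g, Finset.sum_ite, Finset.sum_const_zero, add_zero,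
      Finset.sum_const, nsmul_eq_mul] at h2
    have hc1 : (Finset.univ.filter (fun x : G => x ∈ T)).card = Nat.card T := by
      rw [Nat.card_eq_fintype_card, Fintype.card_subtype]
    rw [hc1, hidx] at h2
    push_cast at h2
    field_simp at h2
    norm_num at h2
  · intro g hg h
    have h2 := hd g
    unfold dd at h2
    rw [hout g hg, sq g] at h2
    have h3 := hin ⟨g * g, h⟩
    apply neg_one_of_add
    rw [← h3]
    change θ (g * g) = -2
    linear_combination -2 * h2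

end Pool.Agent.R362.EV
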