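import Mathlib
import Pool.Agent.R362.EV.Pos
import Pool.Agent.R362.BS.Main

/-!
# Degree two Heilbronn functions with even symplectic multiplicities
-/

set_option autoImplicit false
set_option linter.unusedSectionVars false

namespace Pool.Agent.R362.EV

open Pool.Agent.H302R2 Pool.Agent.H541R3.ART Pool.Agent.W446.AS Pool.Agent.R389
open scoped commutatorElement

/-- the multiplicities of the symplectic characters of degree two which are induced from linear
characters of solvable subgroups are even -/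
def Ev {G : Type} [Group G] (θ : G → ℂ) : Prop :=
  ∀ (T : Subgroup G), Group.IsSolvable T → ∀ (x : G) (hx : ∀ t ∈ T, x * t * x⁻¹ ∈ T)
    (hxx : x * x ∈ T) (ψ : T →* ℂˣ), (∀ t : T, ψ ⟨x * t * x⁻¹, hx t t.2⟩ = (ψ t)⁻¹) →
    ψ ⟨x * x, hxx⟩ = -1 → ∀ n : ℕ,
    ∑ᶠ t : T, θ t * (((ψ t)⁻¹ : ℂˣ) : ℂ) = (n : ℂ) * (Nat.card T : ℂ) → Even n

lemma Ev.comp {G E : Type} [Group G] [Group E] {θ : G → ℂ} (h : Ev θ) (i : E →* G)
    (hi : Function.Injective i) : Ev (fun e => θ (i e)) := by
  intro T hT x hx hxx ψ hψ hψ2 n hn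
  let e := T.equivMapOfInjective i hi
  have hTs : Group.IsSolvable (T.map i) :=
    Group.isSolvable_of_surjective (f := e.toMonoidHom) e.surjective
  refine h (T.map i) hTs (i x) ?_ ?_ (ψ.comp e.symm.toMonoidHom) ?_ ?_ n ?_
  · rintro _ ⟨t, ht, rfl⟩
    exact ⟨x * t * x⁻¹, hx t ht, by simp⟩
  · exact ⟨x * x, hxx, by simp⟩
  · intro t
    obtain ⟨t, rfl⟩ := e.surjective t
    have h1 : ∀ hm, (⟨i x * ((e t : T.map i) : G) * (i x)⁻¹, hm⟩ : T.map i)
        = e ⟨x * t * x⁻¹, hx t t.2⟩ := by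
      intro hm
      apply Subtype.ext
      change _ = i (x * t * x⁻¹)
      rw [map_mul, map_mul, map_inv]
      rfl
    rw [h1]
    change ψ (e.symm (e _)) = (ψ (e.symm (e t)))⁻¹
    rw [MulEquiv.symm_apply_apply, MulEquiv.symm_apply_apply]
    exact hψ t
  · have h1 : ∀ hm, (⟨i x * i x, hm⟩ : T.map i) = e ⟨x * x, hxx⟩ := by
      intro hm
      apply Subtype.ext
      change _ = i (x * x)
      rw [map_mul]
    rw [h1]
    change ψ (e.symm (e _)) = -1
    rw [MulEquiv.symm_apply_apply]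
    exact hψ2
  · rw [← finsum_comp_equiv e.toEquiv, ← Nat.card_congr e.toEquiv, ← hn]
    refine finsum_congr fun t => ?_
    change θ (i t) * (((ψ (e.symm (e t)))⁻¹ : ℂˣ) : ℂ) = _
    rw [MulEquiv.symm_apply_apply]

variable {G : Type} [Group G] [Finite G] {θ : G → ℂ}

/-- a symplectic dihedral character of a group with solvable quotient cannot occur once -/
lemma Ev.contra (hE : Ev θ) (T : Subgroup G) (ψ : T →* ℂˣ) (hT : T.index = 2)
    (hval : ∀ t : T, θ t = ((ψ t : ℂˣ) : ℂ) + (((ψ t)⁻¹ : ℂˣ) : ℂ)) (hne : ∃ t : T, ψ t ≠ (ψ t)⁻¹)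
    (hconj : ∀ g, g ∉ T → ∀ (t : T) (ht' : g * t * g⁻¹ ∈ T), ψ ⟨g * t * g⁻¹, ht'⟩ = (ψ t)⁻¹)
    (hsq : ∀ g, g ∉ T → ∀ (h : g * g ∈ T), ψ ⟨g * g, h⟩ = -1)
    {Q : Type} [Group Q] (q : G →* Q) (hq : ∀ g, q g = 1 → ∃ h : g ∈ T, ψ ⟨g, h⟩ = 1)
    (hQ : Group.IsSolvable Q) : False := by
  classical
  have hTn : T.Normal := Subgroup.normal_of_index_eq_two hT
  obtain ⟨H, hH, hHs⟩ := BS.exists_suppl q
  have hHsol : Group.IsSolvable H := by
    refine Group.isSolvable_of_ker_le_range (Subgroup.subtype (q.ker.subgroupOf H))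
      (q.comp H.subtype) ?_
    intro x hx
    exact ⟨⟨x, by
      rw [Subgroup.mem_subgroupOf]
      exact MonoidHom.mem_ker.mpr (MonoidHom.mem_ker.mp hx)⟩, rfl⟩
  -- an element of `H` outside `T`
  obtain ⟨g, hg⟩ : ∃ g, g ∉ T := by
    by_contra hcon
    push Not at hcon
    have h2 : T = ⊤ := by
      rw [eq_top_iff]
      exact fun g _ => hcon g
    rw [h2, Subgroup.index_top] at hT
    omega
  obtain ⟨x, hxH, hxq⟩ := hH g
  have hxT : x ∉ T := by
    intro hxT
    apply hg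
    obtain ⟨h1, -⟩ := hq (x⁻¹ * g) (by rw [map_mul, map_inv, hxq, inv_mul_cancel])
    have h2 := T.mul_mem hxT h1
    rwa [mul_inv_cancel_left] at h2
  have hxx : x * x ∈ T := by
    rw [Subgroup.mul_mem_iff_of_index_two hT]
  -- the solvable subgroup
  set U : Subgroup G := T ⊓ H with hU
  have hUT : U ≤ T := inf_le_left
  have hUs : Group.IsSolvable U :=
    Group.isSolvable_of_isSolvable_injective (f := Subgroup.inclusion (inf_le_right : U ≤ H))
      (Subgroup.inclusion_injective _)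
  let ψ' : U →* ℂˣ := ψ.comp (Subgroup.inclusion hUT)
  have hψ' : ∀ (u : U), ψ' u = ψ ⟨u, hUT u.2⟩ := fun u => rfl
  have hne' : ψ' ≠ ψ'⁻¹ := by
    obtain ⟨t, ht⟩ := hne
    obtain ⟨y, hyH, hyq⟩ := hH t
    obtain ⟨h1, h2⟩ := hq ((t : G)⁻¹ * y) (by rw [map_mul, map_inv, hyq, inv_mul_cancel])
    have hyT : y ∈ T := by
      have h3 := T.mul_mem t.2 h1
      rwa [mul_inv_cancel_left] at h3
    have h4 : ψ ⟨y, hyT⟩ = ψ t := by
      have h5 : (⟨(t : G)⁻¹ * y, h1⟩ : T) = t⁻¹ * ⟨y, hyT⟩ := rfl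
      rw [h5, map_mul, map_inv] at h2
      exact (inv_mul_eq_one.mp h2).symm
    intro h6
    apply ht
    have h7 : ψ' ⟨y, hyT, hyH⟩ = (ψ' ⟨y, hyT, hyH⟩)⁻¹ := DFunLike.congr_fun h6 _
    rw [hψ'] at h7
    rw [← h4]
    exact h7
  have h1 := hE U hUs x (fun t ht => ⟨hTn.conj_mem t ht.1 x,
      H.mul_mem (H.mul_mem hxH ht.2) (H.inv_mem hxH)⟩) ⟨hxx, H.mul_mem hxH hxH⟩ ψ'
    (fun t => by
      rw [hψ', hψ']
      exact hconj x hxT ⟨t, hUT t.2⟩ _) (by
      rw [hψ']
      exact hsq x hxT hxx) 1 (by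
      have h2 := BS.two_lin ψ' ψ' ψ'⁻¹ (fun u : U => θ u) (fun u => by
        have h3 := hval ⟨u, hUT u.2⟩
        rw [MonoidHom.inv_apply, hψ']
        exact h3)
      rw [if_pos rfl, if_neg hne', add_zero] at h2
      exact h2)
  exact absurd h1 (by decide)

/-- abelian-by-abelian groups are solvable -/
lemma AN.solvable {Q : Type} [Group Q] (h : AN Q) : Group.IsSolvable Q := by
  obtain ⟨A, hA, hc, hn⟩ := h
  have h1 : Group.IsSolvable A := Group.isSolvable_of_comm hc
  have h2 : Group.IsSolvable (Q ⧸ A) := inferInstance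
  refine Group.isSolvable_of_ker_le_range A.subtype (QuotientGroup.mk' A) ?_
  intro x hx
  rw [QuotientGroup.ker_mk'] at hx
  exact ⟨⟨x, hx⟩, rfl⟩

/-- the irreducible case is impossible in determinant one -/
lemma Ev.split_of_quot (hE : Ev θ) (hθ : IsHeilbronn θ) (hV : Virt θ) (h1 : θ 1 = 2)
    (hd : ∀ g, dd θ g = 1) (K : Subgroup G) [K.Normal] (hK : ∀ k ∈ K, θ k = 2)
    (hQ : AN (G ⧸ K)) : Split θ := by
  rcases classify hθ hV h1 K hK hQ with h | ⟨hI, hM⟩
  · exact h
  · exfalso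
    obtain ⟨T, ψ, hT, hout, hin, hne, hconj, hsq⟩ := ind_two hI hM h1 hd
    refine hE.contra T ψ hT hin hne hconj hsq (QuotientGroup.mk' K) ?_ (AN.solvable hQ)
    intro g hg
    have hgK : g ∈ K := (QuotientGroup.eq_one_iff g).mp hg
    have h2 := hK g hgK
    have hgT : g ∈ T := by
      by_contra hcon
      rw [hout g hcon] at h2
      norm_num at h2
    refine ⟨hgT, ?_⟩
    have h3 := hin ⟨g, hgT⟩
    change θ g = _ at h3
    rw [h2] at h3
    have h4 := (norm_avg_eq (norm_char ψ ⟨g, hgT⟩) (norm_char ψ⁻¹ ⟨g, hgT⟩) (ζ := 1)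
      (by norm_num) (by
        rw [MonoidHom.inv_apply, ← h3]; norm_num)).1
    exact Units.ext h4

lemma nil_of_comm {Q : Type} [Group Q] (h : ∀ a b : Q, a * b = b * a) : Group.IsNilpotent Q := by
  let _ : CommGroup Q := { (inferInstance : Group Q) with mul_comm := h }
  exact CommGroup.isNilpotent

lemma an_quat : AN (QuaternionGroup 2) := by
  have hp : IsPGroup 2 (QuaternionGroup 2) := by
    refine IsPGroup.of_card (n := 3) ?_
    rw [Nat.card_eq_fintype_card, QuaternionGroup.card]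
    norm_num
  have hn : Group.IsNilpotent (QuaternionGroup 2) := hp.isNilpotent
  refine ⟨⊥, inferInstance, ?_, inferInstance⟩
  intro a b
  exact Subsingleton.elim _ _

lemma dd_quat : ∀ g : QuaternionGroup 2, dd quatChar g = 1 := by
  rintro (i | i)
  · have hi : i = 0 ∨ i = 1 ∨ i = 2 ∨ i = 3 := by
      revert i; decide
    unfold dd
    rw [sq (QuaternionGroup.a i), QuaternionGroup.a_mul_a]
    rcases hi with rfl | rfl | rfl | rfl
    · simp only [quatChar]
      rw [if_pos trivial, if_pos (by decide)]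
      norm_num
    · simp only [quatChar]
      rw [if_neg (by decide), if_neg (by decide), if_neg (by decide), if_pos (by decide)]
      norm_num
    · simp only [quatChar]
      rw [if_neg (by decide), if_pos trivial, if_pos (by decide)]
      norm_num
    · simp only [quatChar]
      rw [if_neg (by decide), if_neg (by decide), if_neg (by decide), if_pos (by decide)]
      norm_num
  · unfold dd
    rw [sq (QuaternionGroup.xa i), QuaternionGroup.xa_mul_xa]
    simp only [quatChar]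
    rw [if_neg (by simp; decide), if_pos (by simp)]
    norm_num

lemma Ev.qf (hE : Ev θ) (hθ : IsHeilbronn θ) (hV : Virt θ) : QF θ := by
  intro H f hf hθf
  have h1 : θ ((1 : H) : G) = 2 := by
    rw [hθf, map_one]
    change quatChar (QuaternionGroup.a 0) = 2
    simp [quatChar]
  have hs := Ev.split_of_quot (hE.comp H.subtype H.subtype_injective) (hθ.comp H.subtype)
    (hV.comp H.subtype) h1 (by
      intro g
      have h2 := dd_quat (f g)
      unfold dd at h2 ⊢
      simp only [Subgroup.coe_subtype]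
      rw [hθf g, hθf (g ^ 2), map_pow]
      exact h2) f.ker (by
      intro k hk
      change θ k = 2
      rw [hθf k, MonoidHom.mem_ker.mp hk]
      change quatChar (QuaternionGroup.a 0) = 2
      simp [quatChar]) (by
      refine AN.of_injective (QuotientGroup.kerLift f) (QuotientGroup.kerLift_injective f) an_quat)
  obtain ⟨l, m, hlm⟩ := hs
  obtain ⟨u, hu⟩ := hf (QuaternionGroup.a 1)
  obtain ⟨v, hv⟩ := hf (QuaternionGroup.xa 0)
  have h2 := hlm (u * v * u⁻¹ * v⁻¹)
  have h3 : ∀ k : H →* ℂˣ, k (u * v * u⁻¹ * v⁻¹) = 1 := by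
    intro k
    rw [map_mul, map_mul, map_mul, map_inv, map_inv, mul_inv_cancel_comm, mul_inv_cancel]
  rw [h3, h3] at h2
  simp only [Subgroup.coe_subtype] at h2
  rw [hθf, map_mul, map_mul, map_mul, map_inv, map_inv, hu, hv] at h2
  have h4 : (QuaternionGroup.a 1 * QuaternionGroup.xa 0 * (QuaternionGroup.a 1)⁻¹
      * (QuaternionGroup.xa 0)⁻¹ : QuaternionGroup 2) = QuaternionGroup.a 2 := by
    decide
  rw [h4] at h2
  have h5 : quatChar (QuaternionGroup.a 2) = -2 := by
    simp only [quatChar]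
    rw [if_neg (by decide), if_pos trivial]
  rw [h5] at h2
  norm_num at h2

/-- **Determinant one**: the function is a sum of two linear characters. -/
theorem Ev.split_one (hE : Ev θ) (hθ : IsHeilbronn θ) (hV : Virt θ) (h1 : θ 1 = 2)
    (hd : ∀ g, dd θ g = 1) : Split θ := by
  classical
  have hQF := hE.qf hθ hV
  have : Fact (Nat.Prime 2) := ⟨Nat.prime_two⟩
  obtain ⟨P⟩ : Nonempty (Sylow 2 G) := inferInstance
  have hs : Split (fun x : P => θ x) :=
    two_group_split _ P rfl P.isPGroup' _ (hQF.sub (P : Subgroup G).subtype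
      (P : Subgroup G).subtype_injective) (hθ.comp (P : Subgroup G).subtype) h1 (fun g => hd g)
  obtain ⟨φ, hφ, a, ha⟩ := exists_two_transfer hθ hd P hs
  -- the subgroup generated by the two-elements of the kernel
  set S : Set G := {x | (∃ k : ℕ, x ^ (2 ^ k) = 1) ∧ φ x = 1} with hS
  set N : Subgroup G := Subgroup.closure S with hN
  have hNφ : N ≤ φ.ker := by
    rw [hN, Subgroup.closure_le]
    rintro x ⟨-, hx⟩
    exact MonoidHom.mem_ker.mpr hx
  have hSN : ∀ x, (∃ k : ℕ, x ^ (2 ^ k) = 1) → φ x = 1 → x ∈ N :=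
    fun x h2 h3 => Subgroup.subset_closure ⟨h2, h3⟩
  have hNn : N.Normal := by
    refine ⟨fun n hn g => ?_⟩
    have h2 : N ≤ N.comap (MulAut.conj g).toMonoidHom := by
      nth_rewrite 1 [hN]
      rw [Subgroup.closure_le]
      rintro x ⟨⟨k, hk⟩, hx⟩
      refine hSN _ ⟨k, ?_⟩ ?_
      · change (g * x * g⁻¹) ^ (2 ^ k) = 1
        rw [conj_pow, hk, mul_one, mul_inv_cancel]
      · change φ (g * x * g⁻¹) = 1
        rw [map_mul, map_mul, hx, mul_one, map_inv, mul_inv_cancel]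
    exact h2 hn
  have hN2 : ∀ n ∈ N, θ n = 2 := by
    intro n hn
    refine kernel_two (hθ.comp N.subtype) h1 ?_ ?_ ⟨n, hn⟩
    · rw [eq_top_iff, ← Subgroup.closure_closure_coe_preimage (k := S)]
      refine Subgroup.closure_mono ?_
      rintro x ⟨⟨k, hk⟩, -⟩
      exact ⟨k, Subtype.ext hk⟩
    · rintro x k hk
      have h2 : (x : G) ^ (2 ^ k) = 1 := congrArg Subtype.val hk
      exact (hφ x k h2).mp (MonoidHom.mem_ker.mp (hNφ x.2))
  -- the kernel of the transfer modulo `N` has odd order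
  set N' : Subgroup φ.ker := N.subgroupOf φ.ker with hN'
  have hodd : Odd (Nat.card (φ.ker ⧸ N')) := by
    rw [← Nat.not_even_iff_odd, even_iff_two_dvd]
    intro h2
    obtain ⟨y, hy⟩ := exists_prime_orderOf_dvd_card' 2 h2
    obtain ⟨g, rfl⟩ := QuotientGroup.mk_surjective y
    obtain ⟨k, m, hm, hkm⟩ := exists_odd_part (orderOf (g : G)) (orderOf_pos _).ne'
    have h3 : ((g ^ m : φ.ker) : φ.ker ⧸ N') = 1 := by
      rw [QuotientGroup.eq_one_iff, hN', Subgroup.mem_subgroupOf]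
      refine hSN _ ⟨k, ?_⟩ ?_
      · rw [Subgroup.coe_pow, ← pow_mul, mul_comm, ← hkm, pow_orderOf_eq_one]
      · rw [Subgroup.coe_pow, map_pow, MonoidHom.mem_ker.mp g.2, one_pow]
    have h4 : ((g : φ.ker) : φ.ker ⧸ N') ^ m = 1 := by
      rw [← QuotientGroup.mk_pow]
      exact h3
    have h5 := orderOf_dvd_of_pow_eq_one h4
    rw [hy] at h5
    exact (Nat.not_even_iff_odd.mpr hm) (even_iff_two_dvd.mpr h5)
  have hθk : IsHeilbronn (fun x : φ.ker => θ x) := hθ.comp φ.ker.subtype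
  have hc : ∀ g : φ.ker, ∀ n ∈ N', (fun x : φ.ker => θ x) (g * n) = (fun x : φ.ker => θ x) g :=
    fun g n hn => hθk.const_on_cosets h1 N' (fun n hn => hN2 n hn) g hn
  have hsp := odd_split _ (φ.ker ⧸ N') rfl hodd (descend N' (fun x : φ.ker => θ x))
    (hθk.descend N' hc) (by
      rw [← QuotientGroup.mk_one, descend_mk hc]
      exact h1)
  obtain ⟨ρ, μ, hρμ⟩ : Split (fun x : φ.ker => θ x) := by
    have h2 := hsp.comp (QuotientGroup.mk' N')
    have h3 : (fun x : φ.ker => descend N' (fun x : φ.ker => θ x) (QuotientGroup.mk' N' x))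
        = fun x : φ.ker => θ x := funext fun x => descend_mk hc x
    rwa [h3] at h2
  simp only at hρμ
  -- its kernel
  have hρ1 : ∀ x : φ.ker, θ x = 2 ↔ (ρ x = 1 ∧ μ x = 1) := by
    intro x
    constructor
    · intro h2
      rw [hρμ] at h2
      obtain ⟨h3, h4⟩ := norm_avg_eq (norm_char ρ x) (norm_char μ x) (ζ := 1) (by norm_num)
        (by rw [h2]; norm_num)
      exact ⟨Units.ext h3, Units.ext h4⟩
    · rintro ⟨h2, h3⟩
      rw [hρμ, h2, h3, Units.val_one]
      norm_num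
  set K : Subgroup G := (ρ.ker ⊓ μ.ker).map φ.ker.subtype with hKdef
  have hmemK : ∀ x, x ∈ K ↔ φ x = 1 ∧ θ x = 2 := by
    intro x
    constructor
    · rintro ⟨y, hy, rfl⟩
      exact ⟨MonoidHom.mem_ker.mp y.2, (hρ1 y).mpr ⟨MonoidHom.mem_ker.mp hy.1,
        MonoidHom.mem_ker.mp hy.2⟩⟩
    · rintro ⟨h2, h3⟩
      obtain ⟨h4, h5⟩ := (hρ1 ⟨x, MonoidHom.mem_ker.mpr h2⟩).mp h3
      exact ⟨⟨x, MonoidHom.mem_ker.mpr h2⟩, ⟨MonoidHom.mem_ker.mpr h4,
        MonoidHom.mem_ker.mpr h5⟩, rfl⟩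
  have hKn : K.Normal := by
    refine ⟨fun n hn g => ?_⟩
    rw [hmemK] at hn ⊢
    refine ⟨?_, ?_⟩
    · rw [map_mul, map_mul, hn.1, mul_one, map_inv, mul_inv_cancel]
    · rw [hθ.conj]
      exact hn.2
  have hAN : AN (G ⧸ K) := by
    refine ⟨φ.ker.map (QuotientGroup.mk' K), Subgroup.Normal.map inferInstance _
      (QuotientGroup.mk'_surjective K), ?_, ?_⟩
    · rintro ⟨_, x, hx, rfl⟩ ⟨_, y, hy, rfl⟩
      apply Subtype.ext
      change (QuotientGroup.mk' K x) * (QuotientGroup.mk' K y)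
        = (QuotientGroup.mk' K y) * (QuotientGroup.mk' K x)
      rw [← map_mul, ← map_mul]
      apply (QuotientGroup.eq).mpr
      have hx' : x ∈ φ.ker := hx
      have hy' : y ∈ φ.ker := hy
      refine ⟨(⟨x, hx'⟩ * ⟨y, hy'⟩)⁻¹ * (⟨y, hy'⟩ * ⟨x, hx'⟩), ⟨?_, ?_⟩, rfl⟩
      · exact MonoidHom.mem_ker.mpr (by
          rw [map_mul, map_inv, map_mul, map_mul, mul_comm (ρ ⟨y, hy'⟩), inv_mul_cancel])
      · exact MonoidHom.mem_ker.mpr (by
          rw [map_mul, map_inv, map_mul, map_mul, mul_comm (μ ⟨y, hy'⟩), inv_mul_cancel])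
    · apply nil_of_comm
      intro x y
      obtain ⟨x, rfl⟩ := QuotientGroup.mk_surjective x
      obtain ⟨y, rfl⟩ := QuotientGroup.mk_surjective y
      obtain ⟨x, rfl⟩ := QuotientGroup.mk_surjective x
      obtain ⟨y, rfl⟩ := QuotientGroup.mk_surjective y
      rw [← QuotientGroup.mk_mul, ← QuotientGroup.mk_mul, ← QuotientGroup.mk_mul,
        ← QuotientGroup.mk_mul]
      apply (QuotientGroup.eq).mpr
      rw [← QuotientGroup.mk_inv, ← QuotientGroup.mk_mul]
      refine ⟨(x * y)⁻¹ * (y * x), ?_, rfl⟩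
      rw [SetLike.mem_coe, MonoidHom.mem_ker, map_mul, map_inv, map_mul, map_mul, mul_comm (φ y),
        inv_mul_cancel]
  exact hE.split_of_quot hθ hV h1 hd K (fun k hk => ((hmemK k).mp hk).2) hAN

/-- the quotient by the second derived subgroup -/
lemma an_derived : AN (G ⧸ derivedSeries G 2) := by
  refine ⟨(commutator G).map (QuotientGroup.mk' _), Subgroup.Normal.map inferInstance _
    (QuotientGroup.mk'_surjective _), ?_, ?_⟩
  · rintro ⟨_, x, hx, rfl⟩ ⟨_, y, hy, rfl⟩
    apply Subtype.ext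
    change (QuotientGroup.mk' _ x) * (QuotientGroup.mk' _ y)
      = (QuotientGroup.mk' _ y) * (QuotientGroup.mk' _ x)
    rw [← map_mul, ← map_mul]
    apply (QuotientGroup.eq).mpr
    rw [derivedSeries_succ, derivedSeries_one]
    have h3 : (x * y)⁻¹ * (y * x) = ⁅y⁻¹, x⁻¹⁆ := by
      rw [commutatorElement_def]; group
    rw [h3]
    exact Subgroup.commutator_mem_commutator (inv_mem hy) (inv_mem hx)
  · apply nil_of_comm
    intro x y
    obtain ⟨x, rfl⟩ := QuotientGroup.mk_surjective x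
    obtain ⟨y, rfl⟩ := QuotientGroup.mk_surjective y
    obtain ⟨x, rfl⟩ := QuotientGroup.mk_surjective x
    obtain ⟨y, rfl⟩ := QuotientGroup.mk_surjective y
    rw [← QuotientGroup.mk_mul, ← QuotientGroup.mk_mul, ← QuotientGroup.mk_mul,
      ← QuotientGroup.mk_mul]
    apply (QuotientGroup.eq).mpr
    rw [← QuotientGroup.mk_inv, ← QuotientGroup.mk_mul]
    refine ⟨(x * y)⁻¹ * (y * x), ?_, rfl⟩
    have h3 : (x * y)⁻¹ * (y * x) = ⁅y⁻¹, x⁻¹⁆ := by
      rw [commutatorElement_def]; group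
    rw [h3]
    exact Subgroup.commutator_mem_commutator (Subgroup.mem_top _) (Subgroup.mem_top _)

/-- **The main theorem.** -/
theorem Ev.main (hE : Ev θ) (hθ : IsHeilbronn θ) (hV : Virt θ) (h1 : θ 1 = 2) :
    ∀ g ∈ derivedSeries G 2, θ g = 2 := by
  classical
  obtain ⟨D, hD⟩ := hθ.exists_det h1
  have hs : Split (fun x : D.ker => θ x) := Ev.split_one (hE.comp D.ker.subtype
    D.ker.subtype_injective) (hθ.comp D.ker.subtype) (hV.comp D.ker.subtype) h1 (by
      intro g
      change dd θ g = 1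
      rw [← hD, MonoidHom.mem_ker.mp g.2, Units.val_one])
  obtain ⟨ρ, μ, hρμ⟩ := hs
  simp only at hρμ
  have hle : commutator G ≤ D.ker := Abelianization.commutator_subset_ker D
  have h2 : derivedSeries G 2 ≤ (ρ.ker ⊓ μ.ker).map D.ker.subtype := by
    rw [derivedSeries_succ, derivedSeries_one, Subgroup.commutator_le]
    intro a ha b hb
    have ha' := hle ha
    have hb' := hle hb
    refine ⟨⁅(⟨a, ha'⟩ : D.ker), (⟨b, hb'⟩ : D.ker)⁆, ⟨?_, ?_⟩, rfl⟩
    · exact MonoidHom.mem_ker.mpr (by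
        rw [map_commutatorElement, commutatorElement_def, mul_inv_cancel_comm, mul_inv_cancel])
    · exact MonoidHom.mem_ker.mpr (by
        rw [map_commutatorElement, commutatorElement_def, mul_inv_cancel_comm, mul_inv_cancel])
  intro g hg
  obtain ⟨x, ⟨hx1, hx2⟩, rfl⟩ := h2 hg
  change θ x = 2
  rw [hρμ, MonoidHom.mem_ker.mp hx1, MonoidHom.mem_ker.mp hx2, Units.val_one]
  norm_num

/-- functions of degree at most two are constant on the cosets of the second derived subgroup -/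
theorem Ev.const (hE : Ev θ) (hθ : IsHeilbronn θ) (hV : Virt θ) {r : ℕ} (hr : r ≤ 2)
    (h1 : θ 1 = r) : ∀ g, ∀ k ∈ derivedSeries G 2, θ (g * k) = θ g := by
  intro g k hk
  interval_cases r
  · have h2 : ∀ x, θ x = 0 := by
      intro x
      have h3 := hθ.norm_le x
      rw [h1, Nat.cast_zero, Complex.zero_re] at h3
      exact norm_le_zero_iff.mp h3
    rw [h2, h2]
  · obtain ⟨l, hl⟩ := hθ.deg_one (by rw [h1, Nat.cast_one])
    have h2 : l k = 1 := by
      have h3 : k ∈ commutator G := by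
        rw [← derivedSeries_one]
        exact derivedSeries_antitone G (by norm_num) hk
      exact MonoidHom.mem_ker.mp (Abelianization.commutator_subset_ker l h3)
    rw [hl, hl, map_mul, h2, mul_one]
  · rw [Nat.cast_ofNat] at h1
    exact hθ.const_on_cosets h1 _ (hE.main hθ hV h1) g hk

end Pool.Agent.R362.EV
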